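import Mathlib

namespace Pool.Agent.Results.MP_b7f7f4_co.BlockPattern

open Finset

/-- `A` is a latin square on the symbol set `S`: a square array indexed by `ι`, filled with symbols
from `S`, where `S` has as many elements as there are rows, and no symbol repeats in a row or
in a column. -/
def IsLatinOn {ι σ : Type} [Fintype ι] (A : ι → ι → σ) (S : Finset σ) : Prop :=
  S.card = Fintype.card ι ∧ (∀ x y, A x y ∈ S) ∧
    (∀ x, Function.Injective fun y => A x y) ∧ (∀ y, Function.Injective fun x => A x y)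

/-- `θ` is a `k`-weight of `L`: an integer on each cell, summing to `k` over every row, every
column and every symbol. -/
def IsWeight {n : ℕ} (L : Fin n → Fin n → Fin n) (k : ℤ) (θ : Fin n → Fin n → ℤ) : Prop :=
  (∀ x, ∑ y, θ x y = k) ∧ (∀ y, ∑ x, θ x y = k) ∧
    ∀ z, ∑ c ∈ univ.filter (fun c : Fin n × Fin n => L c.1 c.2 = z), θ c.1 c.2 = k

/-- `L` has the odd-block pattern of the Cayley table of `ZMod N`: after a permutation `ρ` of the
rows and `κ` of the columns, `L` is an `N × N` array of `q × q` blocks with `q` odd, the block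
`(i, j)` is a latin square on a symbol set `S i j`, and two blocks have the same symbol set
exactly when `i + j = i' + j'`. -/
def OddBlockPattern {n : ℕ} (L : Fin n → Fin n → Fin n) (N : ℕ) : Prop :=
  ∃ (q : ℕ) (ρ κ : ZMod N × Fin q ≃ Fin n) (S : ZMod N → ZMod N → Finset (Fin n)),
    Odd q ∧ (∀ i j, IsLatinOn (fun a b : Fin q => L (ρ (i, a)) (κ (j, b))) (S i j)) ∧
      ∀ i j i' j', S i j = S i' j' ↔ i + j = i' + j'

theorem exists_char {n : ℕ} (L : Fin n → Fin n → Fin n) (h : ¬ ∃ θ, IsWeight L 1 θ) :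
    ∃ a b c : Fin n → AddCircle (1 : ℚ), (∀ x y, a x + b y + c (L x y) = 0) ∧
      ∑ x, a x + ∑ y, b y + ∑ z, c z ≠ 0 := by
  classical
  let Φ : (Fin n → Fin n → ℤ) →+ (Fin n → ℤ) × (Fin n → ℤ) × (Fin n → ℤ) :=
    AddMonoidHom.mk' (fun θ => (fun x => ∑ y, θ x y, fun y => ∑ x, θ x y,
      fun z => ∑ c ∈ univ.filter (fun c : Fin n × Fin n => L c.1 c.2 = z), θ c.1 c.2)) (by
        intro θ θ'
        ext <;> simp [Finset.sum_add_distrib])
  let v : (Fin n → ℤ) × (Fin n → ℤ) × (Fin n → ℤ) := (fun _ => 1, fun _ => 1, fun _ => 1)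
  have hv : (QuotientAddGroup.mk' Φ.range v) ≠ 0 := by
    intro h0
    rw [QuotientAddGroup.mk'_apply, QuotientAddGroup.eq_zero_iff] at h0
    obtain ⟨θ, hθ⟩ := h0
    apply h
    refine ⟨θ, fun x => ?_, fun y => ?_, fun z => ?_⟩
    · exact congrFun (congrArg (fun t => t.1) hθ) x
    · exact congrFun (congrArg (fun t => t.2.1) hθ) y
    · exact congrFun (congrArg (fun t => t.2.2) hθ) z
  obtain ⟨χ, hχ⟩ := CharacterModule.exists_character_apply_ne_zero_of_ne_zero hv
  let χ' : (((Fin n → ℤ) × (Fin n → ℤ) × (Fin n → ℤ)) ⧸ Φ.range) →+ AddCircle (1 : ℚ) := χ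
  let ψ := χ'.comp (QuotientAddGroup.mk' Φ.range)
  have hψ : ψ v ≠ 0 := hχ
  have hΦ : ∀ θ, ψ (Φ θ) = 0 := by
    intro θ
    have : QuotientAddGroup.mk' Φ.range (Φ θ) = 0 := by
      rw [QuotientAddGroup.mk'_apply, QuotientAddGroup.eq_zero_iff]
      exact ⟨θ, rfl⟩
    simp only [ψ, AddMonoidHom.comp_apply, this, map_zero]
  refine ⟨fun x => ψ (Pi.single x 1, 0, 0), fun y => ψ (0, Pi.single y 1, 0),
    fun z => ψ (0, 0, Pi.single z 1), fun x y => ?_, ?_⟩
  · rw [← map_add, ← map_add, ← hΦ (Pi.single x (Pi.single y 1))]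
    congr 1
    ext t
    · simp only [Φ, AddMonoidHom.mk'_apply, Prod.fst_add, add_zero]
      by_cases ht : t = x
      · subst ht; simp
      · simp [Pi.single_eq_of_ne ht]
    · simp only [Φ, AddMonoidHom.mk'_apply, Prod.fst_add, Prod.snd_add, add_zero, zero_add]
      rw [Finset.sum_eq_single x]
      · simp
      · intro b _ hb; simp [Pi.single_eq_of_ne hb]
      · simp
    · simp only [Φ, AddMonoidHom.mk'_apply, Prod.fst_add, Prod.snd_add, add_zero, zero_add]
      rw [Finset.sum_filter, Finset.sum_eq_single (x, y)]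
      · by_cases ht : t = L x y
        · subst ht; simp
        · simp [Pi.single_eq_of_ne ht, Ne.symm ht]
      · rintro ⟨b1, b2⟩ _ hb
        by_cases h1 : b1 = x
        · subst h1
          have h2 : b2 ≠ y := fun h2 => hb (by rw [h2])
          simp [Pi.single_eq_of_ne h2]
        · simp [Pi.single_eq_of_ne h1]
      · simp
  · rw [← map_sum, ← map_sum, ← map_sum, ← map_add, ← map_add]
    convert hψ using 2
    ext t
    · simp [v, Prod.fst_sum, Finset.sum_apply, Pi.single_apply]
    · simp [v, Prod.fst_sum, Prod.snd_sum, Finset.sum_apply, Pi.single_apply]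
    · simp [v, Prod.snd_sum, Finset.sum_apply, Pi.single_apply]

theorem exists_equiv {n N q : ℕ} (α : Fin n → ZMod N)
    (h : ∀ i, (univ.filter fun x => α x = i).card = q) :
    ∃ ρ : ZMod N × Fin q ≃ Fin n, ∀ i a, α (ρ (i, a)) = i := by
  classical
  have e : ∀ i, {x // α x = i} ≃ Fin q := fun i =>
    Fintype.equivFinOfCardEq (by rw [Fintype.card_subtype]; exact h i)
  refine ⟨((Equiv.sigmaEquivProd _ _).symm.trans
    (Equiv.sigmaCongrRight fun i => (e i).symm)).trans (Equiv.sigmaFiberEquiv α), fun i a => ?_⟩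
  exact ((e i).symm a).2

theorem zmod_case {n N : ℕ} [NeZero N] (L : Fin n → Fin n → Fin n)
    (hr : ∀ x, Function.Injective fun y => L x y) (hc : ∀ y, Function.Injective fun x => L x y)
    (α β γ : Fin n → ZMod N) (hL : ∀ x y, γ (L x y) = α x + β y) (x0 y0 : Fin n)
    (hx : α x0 = 0) (hy : β y0 = 0) (hγ : Function.Surjective γ) (hs : ∑ z, γ z ≠ 0) :
    Even N ∧ OddBlockPattern L N := by
  classical
  have hrb : ∀ x, Function.Bijective fun y => L x y := fun x =>
    Finite.injective_iff_bijective.mp (hr x)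
  have hcb : ∀ y, Function.Bijective fun x => L x y := fun y =>
    Finite.injective_iff_bijective.mp (hc y)
  have hβ : ∀ x h, (univ.filter fun y => β y = h).card
      = (univ.filter fun z => γ z = α x + h).card := by
    intro x h
    apply Finset.card_bijective _ (hrb x)
    intro y
    simp [hL]
  have hα : ∀ y h, (univ.filter fun x => α x = h).card
      = (univ.filter fun z => γ z = h + β y).card := by
    intro y h
    apply Finset.card_bijective _ (hcb y)
    intro x
    simp [hL]
  have hαs : Function.Surjective α := by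
    intro g
    obtain ⟨z, rfl⟩ := hγ g
    obtain ⟨x, rfl⟩ := (hcb y0).2 z
    exact ⟨x, by simp [hL, hy]⟩
  set q := (univ.filter fun y => β y = 0).card with hq
  have hγq : ∀ g, (univ.filter fun z => γ z = g).card = q := by
    intro g
    obtain ⟨x, rfl⟩ := hαs g
    rw [hq, hβ x 0, add_zero]
  have hβq : ∀ g, (univ.filter fun y => β y = g).card = q := fun g => by
    rw [hβ x0 g, hγq]
  have hαq : ∀ g, (univ.filter fun x => α x = g).card = q := fun g => by
    rw [hα y0 g, hγq]
  have hsum : ∑ z, γ z = q • ∑ g : ZMod N, g := by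
    rw [← Finset.sum_fiberwise univ γ γ, Finset.smul_sum]
    refine Finset.sum_congr rfl fun g _ => ?_
    rw [Finset.sum_congr rfl (g := fun _ => g) (fun z hz => (Finset.mem_filter.mp hz).2),
      Finset.sum_const, hγq]
  have h2 : 2 • ∑ g : ZMod N, g = 0 := by
    have : ∑ g : ZMod N, g = ∑ g : ZMod N, -g := (Equiv.sum_comp (Equiv.neg _) id).symm
    rw [two_nsmul]
    nth_rewrite 1 [this]
    rw [Finset.sum_neg_distrib, neg_add_cancel]
  have hqodd : Odd q := by
    rw [← Nat.not_even_iff_odd]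
    rintro ⟨k, hk⟩
    apply hs
    rw [hsum, hk, ← two_mul, mul_comm, mul_smul, h2, smul_zero]
  have hN : Even N := by
    rw [← Nat.not_odd_iff_even]
    rintro ⟨k, hk⟩
    apply hs
    have hN0 : N • ∑ g : ZMod N, g = 0 := by rw [nsmul_eq_mul]; simp
    have : ∑ g : ZMod N, g = 0 := by
      have h3 : (2 * k + 1) • ∑ g : ZMod N, g = 0 := by rw [← hk]; exact hN0
      rwa [add_smul, mul_comm, mul_smul, h2, smul_zero, zero_add, one_smul] at h3
    rw [hsum, this, smul_zero]
  refine ⟨hN, ?_⟩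
  obtain ⟨ρ, hρ⟩ := exists_equiv α hαq
  obtain ⟨κ, hκ⟩ := exists_equiv β hβq
  refine ⟨q, ρ, κ, fun i j => univ.filter fun z => γ z = i + j, hqodd, fun i j => ⟨?_, ?_, ?_, ?_⟩,
    fun i j i' j' => ⟨fun h => ?_, fun h => by simp only [h]⟩⟩
  · rw [hγq, Fintype.card_fin]
  · intro a b
    simp [hL, hρ, hκ]
  · intro a b b' hb
    have := κ.injective (hr _ hb)
    exact (Prod.mk.inj this).2
  · intro b a a' ha
    have := ρ.injective (hc _ ha)
    exact (Prod.mk.inj this).2
  · obtain ⟨z, hz⟩ := hγ (i + j)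
    have h1 : z ∈ univ.filter fun z => γ z = i + j := by simp [hz]
    have h' : (univ.filter fun z => γ z = i + j) = univ.filter fun z => γ z = i' + j' := h
    rw [h'] at h1
    rw [← hz]; exact (Finset.mem_filter.mp h1).2

theorem circle_cyclic (H : AddSubgroup (AddCircle (1 : ℚ))) [Finite H] : IsAddCyclic H := by
  classical
  have := Fintype.ofFinite H
  apply isAddCyclic_of_card_nsmul_eq_zero_le
  intro k hk
  have h1 := AddCircle.card_torsion_le_of_isSMulRegular (1 : ℚ) k hk.ne'
    (.of_right_eq_zero_of_smul fun _ => by simp [hk.ne'])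
  have h2 : (((univ.filter fun a : H => k • a = 0).map (Function.Embedding.subtype _) :
      Finset (AddCircle (1 : ℚ))) : Set (AddCircle (1 : ℚ))) ⊆ {x | k • x = 0} := by
    intro x hx
    simp only [Finset.coe_map, Set.mem_image, Finset.mem_coe, Finset.mem_filter] at hx
    obtain ⟨a, ⟨_, ha⟩, rfl⟩ := hx
    have := congrArg Subtype.val ha
    simpa using this
  have h3 := (Set.encard_le_encard h2).trans h1
  rw [Set.encard_coe_eq_coe_finsetCard, Finset.card_map] at h3
  exact_mod_cast h3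

theorem result (n : ℕ) (L : Fin n → Fin n → Fin n) (hL : IsLatinOn L univ)
    (hno : ∀ k : ℤ, Odd k → ¬ ∃ θ, IsWeight L k θ) :
    ∃ m : ℕ, 1 ≤ m ∧ OddBlockPattern L (2 * m) := by
  classical
  obtain ⟨-, -, hr, hc⟩ := hL
  have hrb : ∀ x, Function.Bijective fun y => L x y := fun x =>
    Finite.injective_iff_bijective.mp (hr x)
  have hcb : ∀ y, Function.Bijective fun x => L x y := fun y =>
    Finite.injective_iff_bijective.mp (hc y)
  obtain ⟨a, b, c, habc, hsum⟩ := exists_char L (hno 1 odd_one)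
  rcases Nat.eq_zero_or_pos n with rfl | hn
  · simp at hsum
  let o : Fin n := ⟨0, hn⟩
  let α : Fin n → AddCircle (1 : ℚ) := fun x => a x - a o
  let β : Fin n → AddCircle (1 : ℚ) := fun y => b y - b o
  let γ : Fin n → AddCircle (1 : ℚ) := fun z => -c z - a o - b o
  have hγ : ∀ x y, γ (L x y) = α x + β y := by
    intro x y
    have := habc x y
    simp only [α, β, γ]
    rw [← sub_eq_zero, ← neg_eq_zero, ← this]; abel
  have hαo : α o = 0 := sub_self _
  have hβo : β o = 0 := sub_self _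
  have hαγ : ∀ x, γ (L x o) = α x := fun x => by rw [hγ, hβo, add_zero]
  have hβγ : ∀ y, γ (L o y) = β y := fun y => by rw [hγ, hαo, zero_add]
  have hsγ : ∑ z, γ z ≠ 0 := by
    have h1 : ∑ x, α x = ∑ z, γ z := by
      rw [← (hcb o).sum_comp γ]; exact Finset.sum_congr rfl fun x _ => (hαγ x).symm
    have h2 : ∑ y, β y = ∑ z, γ z := by
      rw [← (hrb o).sum_comp γ]; exact Finset.sum_congr rfl fun y _ => (hβγ y).symm
    intro h0
    apply hsum
    have h3 : ∑ x, α x + ∑ y, β y - ∑ z, γ z = 0 := by rw [h1, h2, h0]; simp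
    rw [← h3]
    simp only [α, β, γ, Finset.sum_sub_distrib, Finset.sum_neg_distrib]
    abel
  let H : AddSubgroup (AddCircle (1 : ℚ)) :=
    { carrier := Set.range γ
      zero_mem' := ⟨L o o, by rw [hαγ, hαo]⟩
      add_mem' := by
        rintro _ _ ⟨z, rfl⟩ ⟨w, rfl⟩
        obtain ⟨x, rfl⟩ := (hcb o).2 z
        obtain ⟨y, rfl⟩ := (hrb o).2 w
        exact ⟨L x y, by simp only [hγ, hαo, hβo, add_zero, zero_add]⟩
      neg_mem' := by
        rintro _ ⟨z, rfl⟩
        obtain ⟨x, rfl⟩ := (hcb o).2 z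
        obtain ⟨y, hy⟩ := (hrb x).2 (L o o)
        refine ⟨L o y, ?_⟩
        have h1 : γ (L x y) = 0 := by
          have : L x y = L o o := hy
          rw [this, hαγ, hαo]
        rw [hγ] at h1
        simp only [hαγ, hβγ]
        exact eq_neg_of_add_eq_zero_right h1 }
  have hfin : Finite H := (Set.finite_range γ).to_subtype
  let e := zmodAddCyclicAddEquiv (circle_cyclic H)
  have hN : NeZero (Nat.card H) := ⟨Nat.card_pos.ne'⟩
  have mγ : ∀ z, γ z ∈ H := fun z => ⟨z, rfl⟩
  have mα : ∀ x, α x ∈ H := fun x => ⟨_, hαγ x⟩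
  have mβ : ∀ y, β y ∈ H := fun y => ⟨_, hβγ y⟩
  obtain ⟨⟨m, hm⟩, hP⟩ := zmod_case L hr hc (fun x => e.symm ⟨α x, mα x⟩)
    (fun y => e.symm ⟨β y, mβ y⟩) (fun z => e.symm ⟨γ z, mγ z⟩)
    (fun x y => by
      rw [← map_add]; congr 1; exact Subtype.ext (hγ x y)) o o
    (by rw [← e.symm.map_zero]; congr 1; exact Subtype.ext hαo)
    (by rw [← e.symm.map_zero]; congr 1; exact Subtype.ext hβo)
    (fun g => by
      obtain ⟨z, hz⟩ := (e g).2
      refine ⟨z, ?_⟩
      rw [AddEquiv.symm_apply_eq]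
      exact Subtype.ext hz)
    (by
      rw [← map_sum, Ne, EmbeddingLike.map_eq_zero_iff]
      intro h0
      apply hsγ
      have := congrArg Subtype.val h0
      simpa using this)
  have hm2 : Nat.card H = 2 * m := by omega
  refine ⟨m, ?_, hm2 ▸ hP⟩
  have := hN.out
  omega

end Pool.Agent.Results.MP_b7f7f4_co.BlockPattern
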